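import Mathlib

/-! Contour shift across a pole of order three at `1`. -/

set_option autoImplicit false

namespace Pool.Agent.H950R2.Shift3

open Complex MeasureTheory Filter Topology

theorem ne_zero_line {a : ℝ} (ha : a ≠ 0) (y : ℝ) : (a : ℂ) + (y : ℂ) * I ≠ 0 := by
  intro h
  have := congrArg Complex.re h
  simp at this
  exact ha this

theorem hasDerivAt_line (a y : ℝ) : HasDerivAt (fun y : ℝ => (a : ℂ) + (y : ℂ) * I) I y := by
  have h := ((Complex.ofRealCLM.hasDerivAt (x := y)).mul_const I).const_add (a : ℂ)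
  simpa using h

theorem cont_line (a : ℝ) : Continuous (fun y : ℝ => (a : ℂ) + (y : ℂ) * I) := by fun_prop

/-- first power -/
theorem pol1 {a : ℝ} (ha : a ≠ 0) (R : ℝ) :
    ∫ y in (-R)..R, ((a : ℂ) + (y : ℂ) * I)⁻¹ = ((2 * Real.arctan (R / a) : ℝ) : ℂ) := by
  have hd : ∀ y ∈ Set.uIcc (-R) R, HasDerivAt (fun y : ℝ => ((Real.arctan (y / a) : ℝ) : ℂ) -
      ((1 / 2 * Real.log (a ^ 2 + y ^ 2) : ℝ) : ℂ) * I) (((a : ℂ) + (y : ℂ) * I)⁻¹) y := by
    intro y _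
    have hpos : 0 < a ^ 2 + y ^ 2 := by positivity
    have h1 : HasDerivAt (fun y : ℝ => Real.arctan (y / a)) (1 / (1 + (y / a) ^ 2) * (1 / a)) y :=
      ((hasDerivAt_id y).div_const a).arctan
    have h2 : HasDerivAt (fun y : ℝ => 1 / 2 * Real.log (a ^ 2 + y ^ 2))
        (1 / 2 * ((2 * y) / (a ^ 2 + y ^ 2))) y := by
      have h3 : HasDerivAt (fun y : ℝ => a ^ 2 + y ^ 2) (2 * y) y := by
        have := ((hasDerivAt_id y).pow 2).const_add (a ^ 2)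
        simpa using this
      exact (h3.log hpos.ne').const_mul _
    have h4 := h1.ofReal_comp.sub ((h2.ofReal_comp).mul_const I)
    have e : (((1 / (1 + (y / a) ^ 2) * (1 / a) : ℝ)) : ℂ) -
        ((1 / 2 * ((2 * y) / (a ^ 2 + y ^ 2)) : ℝ) : ℂ) * I = ((a : ℂ) + (y : ℂ) * I)⁻¹ := by
      have e1 : 1 / (1 + (y / a) ^ 2) * (1 / a) = a / (a ^ 2 + y ^ 2) := by
        field_simp
      have e2 : 1 / 2 * ((2 * y) / (a ^ 2 + y ^ 2)) = y / (a ^ 2 + y ^ 2) := by ring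
      rw [e1, e2]
      have hz := ne_zero_line ha y
      have hp : ((a : ℂ) ^ 2 + (y : ℂ) ^ 2) ≠ 0 := by
        have : ((a ^ 2 + y ^ 2 : ℝ) : ℂ) ≠ 0 := by exact_mod_cast hpos.ne'
        push_cast at this
        exact this
      push_cast
      field_simp
      ring_nf
      rw [I_sq]
      ring
    rw [← e]
    exact h4
  rw [intervalIntegral.integral_eq_sub_of_hasDerivAt hd]
  · have e3 : (-R) / a = -(R / a) := by ring
    rw [e3, Real.arctan_neg, neg_sq]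
    push_cast
    ring
  · apply Continuous.intervalIntegrable
    exact (cont_line a).inv₀ (fun y => ne_zero_line ha y)

/-- second power -/
theorem pol2 {a : ℝ} (ha : a ≠ 0) (R : ℝ) :
    ∫ y in (-R)..R, (((a : ℂ) + (y : ℂ) * I) ^ 2)⁻¹ =
      I * ((a : ℂ) + (R : ℂ) * I)⁻¹ - I * ((a : ℂ) + ((-R : ℝ) : ℂ) * I)⁻¹ := by
  have hd : ∀ y ∈ Set.uIcc (-R) R, HasDerivAt (fun y : ℝ => I * ((a : ℂ) + (y : ℂ) * I)⁻¹)
      ((((a : ℂ) + (y : ℂ) * I) ^ 2)⁻¹) y := by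
    intro y _
    have hz := ne_zero_line ha y
    have h := ((hasDerivAt_line a y).inv hz).const_mul I
    have e : I * (-I / ((a : ℂ) + (y : ℂ) * I) ^ 2) = (((a : ℂ) + (y : ℂ) * I) ^ 2)⁻¹ := by
      field_simp
      ring_nf
      rw [I_sq]
      ring
    rw [e] at h
    exact h
  rw [intervalIntegral.integral_eq_sub_of_hasDerivAt hd]
  apply Continuous.intervalIntegrable
  exact ((cont_line a).pow 2).inv₀ (fun y => pow_ne_zero 2 (ne_zero_line ha y))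

theorem alg3 (z : ℂ) (hz : z ≠ 0) :
    I / 2 * (-(((2 : ℕ) : ℂ) * z ^ (2 - 1) * I) / (z ^ 2) ^ 2) = (z ^ 3)⁻¹ := by
  have h2 : (2 : ℕ) - 1 = 1 := rfl
  rw [h2, pow_one]
  push_cast
  have e : I / 2 * (-(2 * z * I) / (z ^ 2) ^ 2) = -(I * I) * (z / (z ^ 2) ^ 2) := by ring
  rw [e, I_mul_I]
  field_simp

/-- third power -/
theorem pol3 {a : ℝ} (ha : a ≠ 0) (R : ℝ) :
    ∫ y in (-R)..R, (((a : ℂ) + (y : ℂ) * I) ^ 3)⁻¹ =
      I / 2 * (((a : ℂ) + (R : ℂ) * I) ^ 2)⁻¹ -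
        I / 2 * (((a : ℂ) + ((-R : ℝ) : ℂ) * I) ^ 2)⁻¹ := by
  have hd : ∀ y ∈ Set.uIcc (-R) R, HasDerivAt
      (fun y : ℝ => I / 2 * (((a : ℂ) + (y : ℂ) * I) ^ 2)⁻¹)
      ((((a : ℂ) + (y : ℂ) * I) ^ 3)⁻¹) y := by
    intro y _
    have hz := ne_zero_line ha y
    have h := (((hasDerivAt_line a y).fun_pow 2).inv (pow_ne_zero 2 hz)).const_mul (I / 2)
    rw [alg3 _ hz] at h
    exact h
  rw [intervalIntegral.integral_eq_sub_of_hasDerivAt hd]
  apply Continuous.intervalIntegrable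
  exact ((cont_line a).pow 3).inv₀ (fun y => pow_ne_zero 3 (ne_zero_line ha y))

theorem norm_line_ge (a y : ℝ) : |y| ≤ ‖(a : ℂ) + (y : ℂ) * I‖ := by
  have := Complex.abs_im_le_norm ((a : ℂ) + (y : ℂ) * I)
  simpa using this

theorem norm_inv_line {a y : ℝ} (hy : 1 ≤ |y|) : ‖((a : ℂ) + (y : ℂ) * I)⁻¹‖ ≤ |y|⁻¹ := by
  rw [norm_inv]
  exact inv_anti₀ (by linarith) (norm_line_ge a y)

theorem tendsto_bdd {f : ℝ → ℂ} {C : ℝ} (h : ∀ R : ℝ, 1 ≤ R → ‖f R‖ ≤ C * R⁻¹) :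
    Tendsto f atTop (𝓝 0) := by
  apply squeeze_zero_norm' (a := fun R : ℝ => C * R⁻¹)
  · filter_upwards [eventually_ge_atTop (1 : ℝ)] with R hR
    exact h R hR
  · have := tendsto_inv_atTop_zero (𝕜 := ℝ)
    simpa using this.const_mul C

theorem lim2 {a : ℝ} (ha : a ≠ 0) :
    Tendsto (fun R : ℝ => ∫ y in (-R)..R, (((a : ℂ) + (y : ℂ) * I) ^ 2)⁻¹) atTop (𝓝 0) := by
  apply tendsto_bdd (C := 2)
  intro R hR
  rw [pol2 ha]
  have h1 := norm_inv_line (a := a) (y := R) (by rwa [abs_of_nonneg (by linarith)])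
  have h2 := norm_inv_line (a := a) (y := -R) (by rwa [abs_neg, abs_of_nonneg (by linarith)])
  rw [abs_of_nonneg (by linarith)] at h1
  rw [abs_neg, abs_of_nonneg (by linarith)] at h2
  refine (norm_sub_le _ _).trans ?_
  rw [norm_mul, norm_mul, norm_I, one_mul, one_mul]
  linarith

theorem lim3 {a : ℝ} (ha : a ≠ 0) :
    Tendsto (fun R : ℝ => ∫ y in (-R)..R, (((a : ℂ) + (y : ℂ) * I) ^ 3)⁻¹) atTop (𝓝 0) := by
  apply tendsto_bdd (C := 1)
  intro R hR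
  rw [pol3 ha]
  have h1 := norm_inv_line (a := a) (y := R) (by rwa [abs_of_nonneg (by linarith)])
  have h2 := norm_inv_line (a := a) (y := -R) (by rwa [abs_neg, abs_of_nonneg (by linarith)])
  rw [abs_of_nonneg (by linarith)] at h1
  rw [abs_neg, abs_of_nonneg (by linarith)] at h2
  have hR0 : 0 < R := by linarith
  have hRi : R⁻¹ ≤ 1 := inv_le_one_of_one_le₀ hR
  have hRi0 : 0 ≤ R⁻¹ := by positivity
  have k1 : ‖(((a : ℂ) + (R : ℂ) * I) ^ 2)⁻¹‖ ≤ R⁻¹ := by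
    rw [← inv_pow, norm_pow]
    have := pow_le_pow_left₀ (norm_nonneg _) h1 2
    nlinarith
  have k2 : ‖(((a : ℂ) + ((-R : ℝ) : ℂ) * I) ^ 2)⁻¹‖ ≤ R⁻¹ := by
    rw [← inv_pow, norm_pow]
    have := pow_le_pow_left₀ (norm_nonneg _) h2 2
    nlinarith
  refine (norm_sub_le _ _).trans ?_
  rw [norm_mul, norm_mul]
  have hI : ‖I / 2‖ = 1 / 2 := by simp
  rw [hI]
  linarith

theorem lim1_pos {a : ℝ} (ha : 0 < a) :
    Tendsto (fun R : ℝ => ∫ y in (-R)..R, ((a : ℂ) + (y : ℂ) * I)⁻¹) atTop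
      (𝓝 ((Real.pi : ℝ) : ℂ)) := by
  have h1 : Tendsto (fun R : ℝ => 2 * Real.arctan (R / a)) atTop (𝓝 (2 * (Real.pi / 2))) := by
    apply Tendsto.const_mul
    exact (tendsto_nhds_of_tendsto_nhdsWithin Real.tendsto_arctan_atTop).comp
      (tendsto_id.atTop_div_const ha)
  have h2 : 2 * (Real.pi / 2) = Real.pi := by ring
  rw [h2] at h1
  have h3 := (Complex.continuous_ofReal.tendsto _).comp h1
  refine h3.congr fun R => ?_
  rw [pol1 ha.ne']
  rfl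

theorem lim1_neg {a : ℝ} (ha : a < 0) :
    Tendsto (fun R : ℝ => ∫ y in (-R)..R, ((a : ℂ) + (y : ℂ) * I)⁻¹) atTop
      (𝓝 ((-Real.pi : ℝ) : ℂ)) := by
  have h1 : Tendsto (fun R : ℝ => 2 * Real.arctan (R / a)) atTop (𝓝 (2 * (-(Real.pi / 2)))) := by
    apply Tendsto.const_mul
    refine (tendsto_nhds_of_tendsto_nhdsWithin Real.tendsto_arctan_atBot).comp ?_
    exact tendsto_id.atTop_div_const_of_neg ha
  have h2 : 2 * (-(Real.pi / 2)) = -Real.pi := by ring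
  rw [h2] at h1
  have h3 := (Complex.continuous_ofReal.tendsto _).comp h1
  refine h3.congr fun R => ?_
  rw [pol1 ha.ne]
  rfl

/-- the integral over a segment of a vertical line -/
theorem line_split {F G : ℂ → ℂ} {c1 c2 c3 : ℂ} {x : ℝ} (hx : x ≠ 1)
    (hF : ∀ z : ℂ, z ≠ 1 → F z = c3 / (z - 1) ^ 3 + c2 / (z - 1) ^ 2 + c1 / (z - 1) + G z)
    (hG : ∀ z : ℂ, z.re = x → DifferentiableAt ℂ G z) (R : ℝ) :
    ∫ y in (-R)..R, F ((x : ℂ) + (y : ℂ) * I) =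
      c3 * (∫ y in (-R)..R, ((((x - 1 : ℝ) : ℂ) + (y : ℂ) * I) ^ 3)⁻¹) +
      c2 * (∫ y in (-R)..R, ((((x - 1 : ℝ) : ℂ) + (y : ℂ) * I) ^ 2)⁻¹) +
      c1 * (∫ y in (-R)..R, (((x - 1 : ℝ) : ℂ) + (y : ℂ) * I)⁻¹) +
      ∫ y in (-R)..R, G ((x : ℂ) + (y : ℂ) * I) := by
  have ha : x - 1 ≠ 0 := sub_ne_zero.2 hx
  have hcG : Continuous (fun y : ℝ => G ((x : ℂ) + (y : ℂ) * I)) := by
    rw [continuous_iff_continuousAt]
    intro y
    have h1 : ContinuousAt G ((x : ℂ) + (y : ℂ) * I) := (hG _ (by simp)).continuousAt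
    exact ContinuousAt.comp (f := fun y : ℝ => (x : ℂ) + (y : ℂ) * I) h1
      (cont_line x).continuousAt
  have i1 : IntervalIntegrable (fun y : ℝ => c1 * (((x - 1 : ℝ) : ℂ) + (y : ℂ) * I)⁻¹)
      volume (-R) R :=
    (continuous_const.mul ((cont_line (x - 1)).inv₀
      (fun y => ne_zero_line ha y))).intervalIntegrable _ _
  have i2 : IntervalIntegrable (fun y : ℝ => c2 * ((((x - 1 : ℝ) : ℂ) + (y : ℂ) * I) ^ 2)⁻¹)
      volume (-R) R :=
    (continuous_const.mul (((cont_line (x - 1)).pow 2).inv₀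
      (fun y => pow_ne_zero 2 (ne_zero_line ha y)))).intervalIntegrable _ _
  have i3 : IntervalIntegrable (fun y : ℝ => c3 * ((((x - 1 : ℝ) : ℂ) + (y : ℂ) * I) ^ 3)⁻¹)
      volume (-R) R :=
    (continuous_const.mul (((cont_line (x - 1)).pow 3).inv₀
      (fun y => pow_ne_zero 3 (ne_zero_line ha y)))).intervalIntegrable _ _
  have iG : IntervalIntegrable (fun y : ℝ => G ((x : ℂ) + (y : ℂ) * I)) volume (-R) R :=
    hcG.intervalIntegrable _ _
  rw [← intervalIntegral.integral_const_mul, ← intervalIntegral.integral_const_mul,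
    ← intervalIntegral.integral_const_mul, ← intervalIntegral.integral_add i3 i2,
    ← intervalIntegral.integral_add (i3.add i2) i1,
    ← intervalIntegral.integral_add ((i3.add i2).add i1) iG]
  refine intervalIntegral.integral_congr fun y _ => ?_
  have hz : (x : ℂ) + (y : ℂ) * I ≠ 1 := by
    intro h
    have := congrArg Complex.re h
    simp at this
    exact hx this
  rw [hF _ hz]
  have e : (x : ℂ) + (y : ℂ) * I - 1 = ((x - 1 : ℝ) : ℂ) + (y : ℂ) * I := by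
    push_cast
    ring
  rw [e]
  simp only [div_eq_mul_inv]

/-- Contour shift across a pole of order at most three at `1`. -/
theorem shift3 (F G : ℂ → ℂ) (c1 c2 c3 : ℂ) (x0 x1 C : ℝ) (h0 : x0 < 1) (h1 : 1 < x1)
    (hF : ∀ z : ℂ, z ≠ 1 → F z = c3 / (z - 1) ^ 3 + c2 / (z - 1) ^ 2 + c1 / (z - 1) + G z)
    (hG : ∀ z : ℂ, x0 ≤ z.re → z.re ≤ x1 → DifferentiableAt ℂ G z)
    (hd : ∀ z : ℂ, x0 ≤ z.re → z.re ≤ x1 → 1 ≤ |z.im| → ‖F z‖ ≤ C / |z.im|)
    (hi0 : Integrable (fun y : ℝ => F ((x0 : ℂ) + (y : ℂ) * I)))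
    (hi1 : Integrable (fun y : ℝ => F ((x1 : ℂ) + (y : ℂ) * I))) :
    (∫ y : ℝ, F ((x1 : ℂ) + (y : ℂ) * I)) - (∫ y : ℝ, F ((x0 : ℂ) + (y : ℂ) * I)) =
      2 * (Real.pi : ℂ) * c1 := by
  have ha1 : 0 < x1 - 1 := by linarith
  have ha0 : x0 - 1 < 0 := by linarith
  have t1 : Tendsto (fun R : ℝ => (∫ y in (-R)..R, F ((x1 : ℂ) + (y : ℂ) * I)) -
      ∫ y in (-R)..R, F ((x0 : ℂ) + (y : ℂ) * I)) atTop
      (𝓝 ((∫ y : ℝ, F ((x1 : ℂ) + (y : ℂ) * I)) - ∫ y : ℝ, F ((x0 : ℂ) + (y : ℂ) * I))) :=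
    (intervalIntegral_tendsto_integral hi1 tendsto_neg_atTop_atBot tendsto_id).sub
      (intervalIntegral_tendsto_integral hi0 tendsto_neg_atTop_atBot tendsto_id)
  -- the rectangle
  set K : ℝ := C + ‖c1‖ + ‖c2‖ + ‖c3‖ with hK
  have hGb : ∀ z : ℂ, x0 ≤ z.re → z.re ≤ x1 → 1 ≤ |z.im| → ‖G z‖ ≤ K * |z.im|⁻¹ := by
    intro z hz0 hz1 hz
    have hzn : |z.im| ≤ ‖z - 1‖ := by
      have := Complex.abs_im_le_norm (z - 1)
      simpa using this
    have hpos : 0 < |z.im| := by linarith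
    have hzne : z ≠ 1 := by
      intro h
      rw [h] at hz
      simp at hz
      norm_num at hz
    have e : G z = F z - (c3 / (z - 1) ^ 3 + c2 / (z - 1) ^ 2 + c1 / (z - 1)) := by
      rw [hF z hzne]
      ring
    have b1 : ‖c1 / (z - 1)‖ ≤ ‖c1‖ * |z.im|⁻¹ := by
      rw [norm_div, div_eq_mul_inv]
      exact mul_le_mul_of_nonneg_left (inv_anti₀ hpos hzn) (norm_nonneg _)
    have hpw : ∀ n : ℕ, 1 ≤ n → |z.im| ≤ ‖z - 1‖ ^ n := by
      intro n hn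
      calc |z.im| ≤ ‖z - 1‖ := hzn
        _ = ‖z - 1‖ ^ 1 := (pow_one _).symm
        _ ≤ ‖z - 1‖ ^ n := pow_le_pow_right₀ (hz.trans hzn) hn
    have b2 : ‖c2 / (z - 1) ^ 2‖ ≤ ‖c2‖ * |z.im|⁻¹ := by
      rw [norm_div, div_eq_mul_inv, norm_pow]
      exact mul_le_mul_of_nonneg_left (inv_anti₀ hpos (hpw 2 (by norm_num))) (norm_nonneg _)
    have b3 : ‖c3 / (z - 1) ^ 3‖ ≤ ‖c3‖ * |z.im|⁻¹ := by
      rw [norm_div, div_eq_mul_inv, norm_pow]
      exact mul_le_mul_of_nonneg_left (inv_anti₀ hpos (hpw 3 (by norm_num))) (norm_nonneg _)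
    have b0 := hd z hz0 hz1 hz
    rw [div_eq_mul_inv] at b0
    rw [e]
    refine (norm_sub_le _ _).trans ?_
    have b4 : ‖c3 / (z - 1) ^ 3 + c2 / (z - 1) ^ 2 + c1 / (z - 1)‖ ≤
        ‖c3‖ * |z.im|⁻¹ + ‖c2‖ * |z.im|⁻¹ + ‖c1‖ * |z.im|⁻¹ :=
      (norm_add_le _ _).trans (add_le_add ((norm_add_le _ _).trans (add_le_add b3 b2)) b1)
    have e2 : K * |z.im|⁻¹ = C * |z.im|⁻¹ + (‖c3‖ * |z.im|⁻¹ + ‖c2‖ * |z.im|⁻¹ +
        ‖c1‖ * |z.im|⁻¹) := by rw [hK]; ring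
    rw [e2]
    exact add_le_add b0 b4
  have t2 : Tendsto (fun R : ℝ => (∫ y in (-R)..R, G ((x1 : ℂ) + (y : ℂ) * I)) -
      ∫ y in (-R)..R, G ((x0 : ℂ) + (y : ℂ) * I)) atTop (𝓝 0) := by
    apply tendsto_bdd (C := 2 * ((x1 - x0) * K))
    intro R hR
    have hrect := Complex.integral_boundary_rect_eq_zero_of_differentiableOn G
      ⟨x0, -R⟩ ⟨x1, R⟩ (by
        intro z hz
        simp only [Complex.mem_reProdIm] at hz
        have hz1 := hz.1
        rw [Set.uIcc_of_le (by linarith)] at hz1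
        exact (hG z hz1.1 hz1.2).differentiableWithinAt)
    simp only at hrect
    have hh : ∀ r : ℝ, |r| = R → ‖∫ x : ℝ in x0..x1, G ((x : ℂ) + (r : ℂ) * I)‖ ≤
        K * R⁻¹ * (x1 - x0) := by
      intro r hr
      have := intervalIntegral.norm_integral_le_of_norm_le_const (a := x0) (b := x1)
        (f := fun x : ℝ => G ((x : ℂ) + (r : ℂ) * I)) (C := K * R⁻¹) (by
          intro x hx
          rw [Set.uIoc_of_le (by linarith)] at hx
          have := hGb ((x : ℂ) + (r : ℂ) * I) (by simpa using hx.1.le) (by simpa using hx.2)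
            (by simp [hr, hR])
          simpa [hr] using this)
      rwa [abs_of_nonneg (by linarith)] at this
    have k1 := hh (-R) (by rw [abs_neg, abs_of_nonneg (by linarith)])
    have k2 := hh R (abs_of_nonneg (by linarith))
    have e : (∫ y in (-R)..R, G ((x1 : ℂ) + (y : ℂ) * I)) -
        ∫ y in (-R)..R, G ((x0 : ℂ) + (y : ℂ) * I) =
        I * ((∫ x : ℝ in x0..x1, G ((x : ℂ) + ((-R : ℝ) : ℂ) * I)) -
          ∫ x : ℝ in x0..x1, G ((x : ℂ) + (R : ℂ) * I)) := by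
      have h5 : I * ((∫ y in (-R)..R, G ((x1 : ℂ) + (y : ℂ) * I)) -
        ∫ y in (-R)..R, G ((x0 : ℂ) + (y : ℂ) * I)) =
        -((∫ x : ℝ in x0..x1, G ((x : ℂ) + ((-R : ℝ) : ℂ) * I)) -
          ∫ x : ℝ in x0..x1, G ((x : ℂ) + (R : ℂ) * I)) := by
        have h6 := hrect
        simp only [smul_eq_mul] at h6
        linear_combination h6
      have h7 : ∀ w v : ℂ, I * w = -v → w = I * v := by
        intro w v h
        have h8 : I * (I * w) = I * (-v) := by rw [h]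
        have h9 : I * (I * w) = -w := by
          rw [← mul_assoc, I_mul_I]
          ring
        rw [h9] at h8
        linear_combination -h8
      exact h7 _ _ h5
    rw [e, norm_mul, norm_I, one_mul]
    refine (norm_sub_le _ _).trans ?_
    linarith
  have t3 : Tendsto (fun R : ℝ => (∫ y in (-R)..R, F ((x1 : ℂ) + (y : ℂ) * I)) -
      ∫ y in (-R)..R, F ((x0 : ℂ) + (y : ℂ) * I)) atTop
      (𝓝 ((c3 * 0 + c2 * 0 + c1 * ((Real.pi : ℝ) : ℂ)) -
        (c3 * 0 + c2 * 0 + c1 * ((-Real.pi : ℝ) : ℂ)) + 0)) := by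
    have m1 := (((lim3 ha1.ne').const_mul c3).add ((lim2 ha1.ne').const_mul c2)).add
      ((lim1_pos ha1).const_mul c1)
    have m0 := (((lim3 ha0.ne).const_mul c3).add ((lim2 ha0.ne).const_mul c2)).add
      ((lim1_neg ha0).const_mul c1)
    refine ((m1.sub m0).add t2).congr fun R => ?_
    rw [line_split h1.ne' hF (fun z hz => hG z (by rw [hz]; linarith) (by rw [hz])) R,
      line_split h0.ne hF (fun z hz => hG z (by rw [hz]) (by rw [hz]; linarith)) R]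
    ring
  have := tendsto_nhds_unique t1 t3
  rw [this]
  push_cast
  ring

end Pool.Agent.H950R2.Shift3
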