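import Pool.Agent.H295R2.MK.Defs

set_option autoImplicit false

/-!
Task V2 of the project MK (moments of zeta): the volume of the region of `N4`.
-/

namespace Pool.Agent.H950R2.MK_V2

open Finset Filter Topology MeasureTheory
open Pool.Agent.H306R2 H295MK

noncomputable section

/-- Beta integral with natural exponents -/
theorem beta (a : ℝ) : ∀ n m : ℕ, ∫ x in (0:ℝ)..a, x ^ m * (a - x) ^ n =
    a ^ (m + n + 1) * ((m.factorial : ℝ) * n.factorial / (m + n + 1).factorial) := by
  intro n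
  induction n with
  | zero =>
    intro m
    simp only [pow_zero, mul_one]
    rw [integral_pow]
    rw [Nat.add_zero, Nat.factorial_succ, Nat.factorial_zero]
    have h1 : (m.factorial : ℝ) ≠ 0 := by exact_mod_cast m.factorial_ne_zero
    have h2 : ((m : ℝ) + 1) ≠ 0 := by positivity
    push_cast
    field_simp
    ring
  | succ n ih =>
    intro m
    have hd : ∀ x ∈ Set.uIcc (0:ℝ) a, HasDerivAt (fun x : ℝ => x ^ (m + 1) * (a - x) ^ (n + 1))
        (((m : ℝ) + 1) * (x ^ m * (a - x) ^ (n + 1)) - ((n : ℝ) + 1) * (x ^ (m + 1) * (a - x) ^ n)) x := by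
      intro x _
      have e1 : HasDerivAt (fun x : ℝ => x ^ (m + 1)) (((m + 1 : ℕ) : ℝ) * x ^ m) x := by
        simpa using hasDerivAt_pow (m + 1) x
      have e2 : HasDerivAt (fun x : ℝ => (a - x) ^ (n + 1)) (((n + 1 : ℕ) : ℝ) * (a - x) ^ n * (-1)) x := by
        have h5 : HasDerivAt (fun x : ℝ => a - x) (-1) x := by
          simpa using (hasDerivAt_id x).const_sub a
        exact h5.fun_pow (n + 1)
      have e3 := e1.fun_mul e2
      refine e3.congr_deriv ?_
      push_cast
      ring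
    have hI : IntervalIntegrable (fun x : ℝ => ((m : ℝ) + 1) * (x ^ m * (a - x) ^ (n + 1)) -
        ((n : ℝ) + 1) * (x ^ (m + 1) * (a - x) ^ n)) volume 0 a :=
      (by fun_prop : Continuous _).intervalIntegrable _ _
    have h0 := intervalIntegral.integral_eq_sub_of_hasDerivAt hd hI
    rw [intervalIntegral.integral_sub ((by fun_prop : Continuous _).intervalIntegrable _ _)
      ((by fun_prop : Continuous _).intervalIntegrable _ _), intervalIntegral.integral_const_mul,
      intervalIntegral.integral_const_mul, ih (m + 1)] at h0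
    simp only [sub_self, zero_pow (Nat.succ_ne_zero _), mul_zero, zero_mul] at h0
    have h2 : ((m : ℝ) + 1) ≠ 0 := by positivity
    have h3 : ((m + (n + 1) + 1).factorial : ℝ) ≠ 0 := by
      exact_mod_cast (m + (n + 1) + 1).factorial_ne_zero
    apply mul_left_cancel₀ h2
    have e : m + 1 + n + 1 = m + (n + 1) + 1 := by ring
    rw [e, Nat.factorial_succ m] at h0
    rw [Nat.factorial_succ n]
    push_cast at h0 ⊢
    linear_combination h0

/-- Fubini, splitting off one coordinate -/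
theorem split {n : ℕ} (i : Fin (n + 1)) (F : ℝ → (Fin n → ℝ) → ℝ)
    (hF : Integrable (fun u : Fin (n + 1) → ℝ => F (u i) (fun j => u (i.succAbove j)))) :
    (∫ u : Fin (n + 1) → ℝ, F (u i) (fun j => u (i.succAbove j))) = ∫ a, ∫ v, F a v ∧
    ∀ᵐ a, Integrable (F a) := by
  have hp := volume_preserving_piFinSuccAbove (fun _ : Fin (n + 1) => ℝ) i
  let e := MeasurableEquiv.piFinSuccAbove (fun _ : Fin (n + 1) => ℝ) i
  have hcomp : (fun u : Fin (n + 1) → ℝ => F (u i) (fun j => u (i.succAbove j))) =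
      (fun p : ℝ × (Fin n → ℝ) => F p.1 p.2) ∘ e := by
    funext u
    rfl
  have hI : Integrable (fun p : ℝ × (Fin n → ℝ) => F p.1 p.2) := by
    rw [hcomp] at hF
    exact (hp.integrable_comp_emb e.measurableEmbedding).1 hF
  constructor
  · have h1 : (∫ u : Fin (n + 1) → ℝ, F (u i) (fun j => u (i.succAbove j))) =
        ∫ p : ℝ × (Fin n → ℝ), F p.1 p.2 :=
      hp.integral_comp e.measurableEmbedding (fun p : ℝ × (Fin n → ℝ) => F p.1 p.2)
    rw [h1]
    rw [Measure.volume_eq_prod] at hI ⊢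
    exact integral_prod _ hI
  · rw [Measure.volume_eq_prod] at hI
    exact hI.prod_right_ae

/-- an integral of a function supported in an interval -/
theorem hlp (f p : ℝ → ℝ) (A B : ℝ) (hAB : A ≤ B) (h1 : ∀ x ∈ Set.Ioo A B, f x = p x)
    (h0 : ∀ x ∉ Set.Ioo A B, f x = 0) : ∫ x, f x = ∫ x in A..B, p x := by
  rw [← setIntegral_eq_integral_of_forall_compl_eq_zero h0, intervalIntegral.integral_of_le hAB,
    integral_Ioc_eq_integral_Ioo]
  exact setIntegral_congr_fun measurableSet_Ioo h1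

/-- the density -/
def g (q : ℕ) (x : ℝ) : ℝ := gd (q : ℝ) x

theorem g_nonneg {q : ℕ} (hq : 1 ≤ q) (x : ℝ) : 0 ≤ g q x :=
  gd_nonneg (by exact_mod_cast hq) x

theorem g_meas (q : ℕ) : Measurable (g q) := gd_meas _

theorem g_pos_eq {p : ℕ} {x : ℝ} (hx : 0 < x) : g (p + 1) x = x ^ p / p.factorial := by
  unfold g gd
  rw [if_pos hx]
  push_cast
  rw [Real.Gamma_nat_eq_factorial, add_sub_cancel_right, Real.rpow_natCast]

theorem g_zero {q : ℕ} {x : ℝ} (hx : x ≤ 0) : g q x = 0 := by
  unfold g gd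
  rw [if_neg (not_lt.2 hx)]

theorem g_ct_int {q : ℕ} (hq : 1 ≤ q) (B : ℝ) : Integrable (fun u => g q u * ct B u) :=
  gd_ct_integrable (by exact_mod_cast hq) B

theorem g_ct_integral {q : ℕ} (hq : 1 ≤ q) (B : ℝ) :
    ∫ u, g q u * ct B u = (max B 0) ^ q / q.factorial := by
  have := gd_ct_integral (m := (q : ℝ)) (by exact_mod_cast hq) B
  rw [Real.rpow_natCast, Real.Gamma_nat_eq_factorial] at this
  exact this

/-- the inner integral -/
def h (q : ℕ) (a x : ℝ) : ℝ := (max (a - x) 0) ^ q / q.factorial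

theorem h_nonneg (q : ℕ) (a x : ℝ) : 0 ≤ h q a x := by
  unfold h
  have := le_max_right (a - x) 0
  positivity

theorem h_meas (q : ℕ) (a : ℝ) : Measurable (h q a) := by
  unfold h
  fun_prop

theorem h_zero {q : ℕ} (hq : 1 ≤ q) {a x : ℝ} (hx : a ≤ x) : h q a x = 0 := by
  unfold h
  rw [max_eq_right (by linarith), zero_pow (by omega), zero_div]

theorem h_le (q : ℕ) {a x : ℝ} (ha : 0 ≤ a) (hx : 0 ≤ x) : h q a x ≤ a ^ q / q.factorial := by
  unfold h
  have h1 : max (a - x) 0 ≤ a := max_le (by linarith) ha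
  have h2 := le_max_right (a - x) 0
  gcongr

/-- the half kernel -/
def K (q : ℕ) (a y x : ℝ) : ℝ := g q y * h q a y ^ 2 * (g q x * ct y x)

theorem ct_meas2 : Measurable (fun p : ℝ × ℝ => ct p.1 p.2) := by
  unfold ct
  exact Measurable.ite (measurableSet_le measurable_snd measurable_fst) measurable_const
    measurable_const

theorem K_int {q : ℕ} (hq : 1 ≤ q) {a : ℝ} (ha : 0 < a) :
    Integrable (fun p : ℝ × ℝ => K q a p.1 p.2) (volume.prod volume) := by
  have hb : Integrable (fun p : ℝ × ℝ => (a ^ q / q.factorial) ^ 2 *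
      ((g q p.1 * ct a p.1) * (g q p.2 * ct a p.2))) (volume.prod volume) :=
    ((g_ct_int hq a).mul_prod (g_ct_int hq a)).const_mul _
  refine hb.mono' ?_ (Eventually.of_forall fun p => ?_)
  · apply Measurable.aestronglyMeasurable
    unfold K
    have m1 := g_meas q
    have m2 := h_meas q a
    have m3 := ct_meas2
    exact (((m1.comp measurable_fst).mul ((m2.comp measurable_fst).pow_const 2))).mul
      ((m1.comp measurable_snd).mul m3)
  · obtain ⟨y, x⟩ := p
    simp only
    have gy := g_nonneg hq y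
    have gx := g_nonneg hq x
    have hy := h_nonneg q a y
    have c1 := ct_nonneg y x
    have c2 := ct_nonneg a x
    have c3 := ct_nonneg a y
    have cc : 0 ≤ (a ^ q / (q.factorial : ℝ)) ^ 2 := by positivity
    have hK : 0 ≤ K q a y x := by unfold K; positivity
    rw [Real.norm_eq_abs, abs_of_nonneg hK]
    have hR : 0 ≤ (a ^ q / (q.factorial : ℝ)) ^ 2 * ((g q y * ct a y) * (g q x * ct a x)) := by
      positivity
    by_cases h1 : y ≤ 0
    · unfold K
      rw [g_zero h1, zero_mul, zero_mul]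
      rw [g_zero h1] at hR
      exact hR
    by_cases h2 : a ≤ y
    · unfold K
      rw [h_zero hq h2]
      refine le_trans (le_of_eq ?_) hR
      ring
    by_cases h3 : x ≤ y
    · have hc1 : ct y x = 1 := by unfold ct; rw [if_pos h3]
      have hc2 : ct a x = 1 := by unfold ct; rw [if_pos (by linarith)]
      have hc3 : ct a y = 1 := by unfold ct; rw [if_pos (by linarith)]
      unfold K
      rw [hc1, hc2, hc3]
      have hle := h_le q (x := y) ha.le (by linarith)
      have h4 : h q a y ^ 2 ≤ (a ^ q / (q.factorial : ℝ)) ^ 2 := by gcongr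
      calc g q y * h q a y ^ 2 * (g q x * 1) ≤ g q y * (a ^ q / (q.factorial : ℝ)) ^ 2 * (g q x * 1) := by
            gcongr
        _ = _ := by ring
    · have hc1 : ct y x = 0 := by unfold ct; rw [if_neg h3]
      unfold K
      rw [hc1]
      refine le_trans (le_of_eq ?_) hR
      ring

theorem K_val {p : ℕ} {a : ℝ} (ha : 0 < a) : ∫ y, ∫ x, K (p + 1) a y x =
    a ^ (4 * (p + 1)) * (((2 * p + 1).factorial : ℝ) * (2 * (p + 1)).factorial /
      (4 * (p + 1)).factorial / (p.factorial * ((p + 1).factorial : ℝ) ^ 3)) := by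
  have h1 : ∀ y, ∫ x, K (p + 1) a y x = g (p + 1) y * h (p + 1) a y ^ 2 *
      ((max y 0) ^ (p + 1) / (p + 1).factorial) := by
    intro y
    unfold K
    rw [integral_const_mul, g_ct_integral (by omega)]
  simp only [h1]
  have h2 := hlp (fun y => g (p + 1) y * h (p + 1) a y ^ 2 *
      ((max y 0) ^ (p + 1) / (p + 1).factorial))
      (fun y => (1 / (p.factorial * ((p + 1).factorial : ℝ) ^ 3)) *
        (y ^ (2 * p + 1) * (a - y) ^ (2 * (p + 1)))) 0 a ha.le ?_ ?_
  · rw [h2, intervalIntegral.integral_const_mul, beta]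
    have e : 2 * p + 1 + 2 * (p + 1) + 1 = 4 * (p + 1) := by ring
    rw [e]
    ring
  · intro y hy
    rw [g_pos_eq hy.1]
    unfold h
    rw [max_eq_left hy.1.le, max_eq_left (by linarith [hy.2])]
    have e1 : y ^ (2 * p + 1) = y ^ p * y ^ (p + 1) := by rw [← pow_add]; congr 1; ring
    have e2 : (a - y) ^ (2 * (p + 1)) = ((a - y) ^ (p + 1)) ^ 2 := by rw [← pow_mul]; congr 1; ring
    rw [e1, e2]
    field_simp
  · intro y hy
    rw [Set.mem_Ioo, not_and_or] at hy
    rcases hy with hy | hy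
    · rw [g_zero (not_lt.1 hy), zero_mul, zero_mul]
    · rw [h_zero (by omega) (not_lt.1 hy)]
      ring

/-- the full kernel -/
theorem full_val {p : ℕ} {a : ℝ} (ha : 0 < a) :
    ∫ y, ∫ x, g (p + 1) y * g (p + 1) x * h (p + 1) a (max x y) ^ 2 =
    a ^ (4 * (p + 1)) * volN (p + 1) := by
  have hKi := K_int (q := p + 1) (by omega) ha
  have hswap : Integrable (fun z : ℝ × ℝ => K (p + 1) a z.2 z.1) (volume.prod volume) := hKi.swap
  have h1 : ∫ y, ∫ x, g (p + 1) y * g (p + 1) x * h (p + 1) a (max x y) ^ 2 =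
      ∫ y, ∫ x, (K (p + 1) a y x + K (p + 1) a x y) := by
    congr 1
    funext y
    apply integral_congr_ae
    have hne : ∀ᵐ x : ℝ, x ≠ y := by
      rw [ae_iff]
      simp
    filter_upwards [hne] with x hx
    unfold K
    rcases lt_or_gt_of_ne hx with h | h
    · have c1 : ct y x = 1 := by unfold ct; rw [if_pos h.le]
      have c2 : ct x y = 0 := by unfold ct; rw [if_neg (not_le.2 h)]
      rw [c1, c2, max_eq_right h.le]
      ring
    · have c1 : ct y x = 0 := by unfold ct; rw [if_neg (not_le.2 h)]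
      have c2 : ct x y = 1 := by unfold ct; rw [if_pos h.le]
      rw [c1, c2, max_eq_left h.le]
      ring
  rw [h1]
  have h2 : ∫ y, ∫ x, (K (p + 1) a y x + K (p + 1) a x y) =
      (∫ y, ∫ x, K (p + 1) a y x) + ∫ y, ∫ x, K (p + 1) a x y :=
    integral_integral_add hKi hswap
  rw [h2]
  have h3 : ∫ y, ∫ x, K (p + 1) a x y = ∫ x, ∫ y, K (p + 1) a x y :=
    integral_integral_swap hswap
  rw [h3, K_val ha]
  unfold volN
  have f1 : ((2 * (p + 1)).factorial : ℝ) = 2 * (p + 1) * (2 * p + 1).factorial := by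
    rw [show 2 * (p + 1) = (2 * p + 1) + 1 by ring, Nat.factorial_succ]
    push_cast
    ring
  have f2 : ((p + 1).factorial : ℝ) = (p + 1) * p.factorial := by
    rw [Nat.factorial_succ]
    push_cast
    ring
  have n1 : ((4 * (p + 1)).factorial : ℝ) ≠ 0 := by exact_mod_cast (4 * (p + 1)).factorial_ne_zero
  have n2 : (p.factorial : ℝ) ≠ 0 := by exact_mod_cast p.factorial_ne_zero
  have n3 : ((2 * p + 1).factorial : ℝ) ≠ 0 := by exact_mod_cast (2 * p + 1).factorial_ne_zero
  have n4 : (p : ℝ) + 1 ≠ 0 := by positivity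
  rw [f1, f2]
  field_simp
  ring

theorem chN_eq (a : ℝ) (u : Fin 4 → ℝ) : chN a u =
    ct a (u 0 + u 2) * ct a (u 1 + u 2) * ct a (u 0 + u 3) * ct a (u 1 + u 3) := by
  unfold chN ct
  by_cases h1 : u 0 + u 2 ≤ a <;> by_cases h2 : u 1 + u 2 ≤ a <;> by_cases h3 : u 0 + u 3 ≤ a <;>
    by_cases h4 : u 1 + u 3 ≤ a <;> simp [h1, h2, h3, h4]

theorem ct_two (a x y w : ℝ) : ct a (w + x) * ct a (w + y) = ct (a - max x y) w := by
  unfold ct
  by_cases h1 : w + x ≤ a
  · by_cases h2 : w + y ≤ a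
    · have h3 : max x y ≤ a - w := max_le (by linarith) (by linarith)
      rw [if_pos h1, if_pos h2, if_pos (by linarith), mul_one]
    · have h3 := le_max_right x y
      have h4 : ¬ w ≤ a - max x y := fun h => h2 (by linarith)
      rw [if_neg h2, if_neg h4, mul_zero]
  · have h3 := le_max_left x y
    have h4 : ¬ w ≤ a - max x y := fun h => h1 (by linarith)
    rw [if_neg h1, if_neg h4, zero_mul]

/-- the integrand -/
def Fu (p : ℕ) (a : ℝ) (u : Fin 4 → ℝ) : ℝ :=
  g (p + 1) (u 0) * g (p + 1) (u 1) * g (p + 1) (u 2) * g (p + 1) (u 3) *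
    (ct a (u 0 + u 2) * ct a (u 1 + u 2) * ct a (u 0 + u 3) * ct a (u 1 + u 3))

theorem Fu_int (p : ℕ) {a : ℝ} : Integrable (Fu p a) := by
  have hb : Integrable (fun u : Fin 4 → ℝ => ∏ i, (g (p + 1) (u i) * ct a (u i))) :=
    Integrable.fintype_prod (ι := Fin 4) (f := fun _ => fun x => g (p + 1) x * ct a x)
      (fun _ => g_ct_int (by omega) a)
  refine hb.mono' ?_ (Eventually.of_forall fun u => ?_)
  · apply Measurable.aestronglyMeasurable
    unfold Fu
    have m := g_meas (p + 1)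
    have c := ct_meas a
    refine ((((m.comp (measurable_pi_apply 0)).mul (m.comp (measurable_pi_apply 1))).mul
      (m.comp (measurable_pi_apply 2))).mul (m.comp (measurable_pi_apply 3))).mul ?_
    refine (((c.comp ?_).mul (c.comp ?_)).mul (c.comp ?_)).mul (c.comp ?_) <;> fun_prop
  · rw [Fin.prod_univ_four]
    have hq : 1 ≤ p + 1 := by omega
    have n0 := g_nonneg hq (u 0)
    have n1 := g_nonneg hq (u 1)
    have n2 := g_nonneg hq (u 2)
    have n3 := g_nonneg hq (u 3)
    have c0 := ct_nonneg a (u 0)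
    have c1 := ct_nonneg a (u 1)
    have c2 := ct_nonneg a (u 2)
    have c3 := ct_nonneg a (u 3)
    have d0 := ct_nonneg a (u 0 + u 2)
    have d1 := ct_nonneg a (u 1 + u 2)
    have d2 := ct_nonneg a (u 0 + u 3)
    have d3 := ct_nonneg a (u 1 + u 3)
    have hF : 0 ≤ Fu p a u := by unfold Fu; positivity
    rw [Real.norm_eq_abs, abs_of_nonneg hF]
    by_cases hz : ∃ i, u i ≤ 0
    · have hF0 : Fu p a u = 0 := by
        obtain ⟨i, hi⟩ := hz
        have h0 := g_zero (q := p + 1) hi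
        unfold Fu
        fin_cases i
        · simp only [Fin.zero_eta] at h0; rw [h0]; ring
        · simp only [Fin.mk_one] at h0; rw [h0]; ring
        · simp only [Fin.reduceFinMk] at h0; rw [h0]; ring
        · simp only [Fin.reduceFinMk] at h0; rw [h0]; ring
      rw [hF0]
      positivity
    · push Not at hz
      have z0 := hz 0
      have z1 := hz 1
      have z2 := hz 2
      have z3 := hz 3
      by_cases h1 : u 0 + u 2 ≤ a
      · by_cases h2 : u 1 + u 3 ≤ a
        · have e0 : ct a (u 0) = 1 := by unfold ct; rw [if_pos (by linarith)]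
          have e1 : ct a (u 1) = 1 := by unfold ct; rw [if_pos (by linarith)]
          have e2 : ct a (u 2) = 1 := by unfold ct; rw [if_pos (by linarith)]
          have e3 : ct a (u 3) = 1 := by unfold ct; rw [if_pos (by linarith)]
          rw [e0, e1, e2, e3]
          unfold Fu
          have q1 : ct a (u 0 + u 2) * ct a (u 1 + u 2) ≤ 1 :=
            mul_le_one₀ (ct_le_one _ _) d1 (ct_le_one _ _)
          have q2 : ct a (u 0 + u 2) * ct a (u 1 + u 2) * ct a (u 0 + u 3) ≤ 1 :=
            mul_le_one₀ q1 d2 (ct_le_one _ _)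
          have q3 : ct a (u 0 + u 2) * ct a (u 1 + u 2) * ct a (u 0 + u 3) * ct a (u 1 + u 3) ≤ 1 :=
            mul_le_one₀ q2 d3 (ct_le_one _ _)
          calc _ ≤ g (p + 1) (u 0) * g (p + 1) (u 1) * g (p + 1) (u 2) * g (p + 1) (u 3) * 1 :=
                mul_le_mul_of_nonneg_left q3 (by positivity)
            _ = _ := by ring
        · have e : ct a (u 1 + u 3) = 0 := by unfold ct; rw [if_neg h2]
          have hF0 : Fu p a u = 0 := by unfold Fu; rw [e]; ring
          rw [hF0]
          positivity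
      · have e : ct a (u 0 + u 2) = 0 := by unfold ct; rw [if_neg h1]
        have hF0 : Fu p a u = 0 := by unfold Fu; rw [e]; ring
        rw [hF0]
        positivity

theorem Fu_val (p : ℕ) {a : ℝ} (ha : 0 < a) :
    ∫ u, Fu p a u = a ^ (4 * (p + 1)) * volN (p + 1) := by
  have hI := Fu_int p (a := a)
  have s1 := split (n := 3) 3 (fun y v =>
    g (p + 1) (v 0) * g (p + 1) (v 1) * g (p + 1) (v 2) * g (p + 1) y *
    (ct a (v 0 + v 2) * ct a (v 1 + v 2) * ct a (v 0 + y) * ct a (v 1 + y))) hI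
  have e1 : ∫ u, Fu p a u = ∫ y : ℝ, ∫ v : Fin 3 → ℝ,
      g (p + 1) (v 0) * g (p + 1) (v 1) * g (p + 1) (v 2) * g (p + 1) y *
    (ct a (v 0 + v 2) * ct a (v 1 + v 2) * ct a (v 0 + y) * ct a (v 1 + y)) := s1.1
  rw [e1, ← full_val ha]
  apply integral_congr_ae
  filter_upwards [s1.2] with y hy
  have s2 := split (n := 2) 2 (fun x w =>
    g (p + 1) (w 0) * g (p + 1) (w 1) * g (p + 1) x * g (p + 1) y *
    (ct a (w 0 + x) * ct a (w 1 + x) * ct a (w 0 + y) * ct a (w 1 + y))) hy
  have e2 : ∫ v : Fin 3 → ℝ, g (p + 1) (v 0) * g (p + 1) (v 1) * g (p + 1) (v 2) * g (p + 1) y *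
    (ct a (v 0 + v 2) * ct a (v 1 + v 2) * ct a (v 0 + y) * ct a (v 1 + y)) =
    ∫ x : ℝ, ∫ w : Fin 2 → ℝ, g (p + 1) (w 0) * g (p + 1) (w 1) * g (p + 1) x * g (p + 1) y *
    (ct a (w 0 + x) * ct a (w 1 + x) * ct a (w 0 + y) * ct a (w 1 + y)) := s2.1
  rw [e2]
  congr 1
  funext x
  have e3 : ∀ w : Fin 2 → ℝ, g (p + 1) (w 0) * g (p + 1) (w 1) * g (p + 1) x * g (p + 1) y *
      (ct a (w 0 + x) * ct a (w 1 + x) * ct a (w 0 + y) * ct a (w 1 + y)) =
      (g (p + 1) y * g (p + 1) x) * ∏ i : Fin 2, (g (p + 1) (w i) * ct (a - max x y) (w i)) := by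
    intro w
    rw [Fin.prod_univ_two, ← ct_two, ← ct_two]
    ring
  simp only [e3]
  rw [integral_const_mul,
    integral_fintype_prod_volume_eq_prod (fun (_ : Fin 2) (x' : ℝ) => g (p + 1) x' * ct (a - max x y) x'),
    Fin.prod_univ_two, g_ct_integral (by omega)]
  unfold h
  ring

/-- V2 -/
theorem VolN_ok : VolN := by
  intro j a hj ha
  obtain ⟨p, hp⟩ : ∃ p, j ^ 2 = p + 1 :=
    ⟨j ^ 2 - 1, by have : 1 ≤ j ^ 2 := Nat.one_le_pow _ _ hj; omega⟩
  have hg : ∀ x, gd ((j : ℝ) ^ 2) x = g (p + 1) x := by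
    intro x
    unfold g
    rw [← hp]
    push_cast
    rfl
  have hf : (fun u : Fin 4 → ℝ => Gd (m4 j) u * chN a u) = Fu p a := by
    funext u
    unfold Gd m4 Fu
    rw [Fin.prod_univ_four, chN_eq]
    simp only [hg]
  rw [hf, hp]
  exact ⟨Fu_int p, Fu_val p ha⟩

end

end Pool.Agent.H950R2.MK_V2
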