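import Pool.Agent.H950R2.SM9.Main

set_option autoImplicit false

/-!
The asymptotic formula for `V_k(u)`.
-/

namespace Pool.Agent.H950R2

open Real Complex MeasureTheory Filter Topology Set
open Pool.Agent.H306R2 Pool.Agent.H306R2.SM Pool.Agent.H950R2.SM9

noncomputable section

theorem d3_hasSum (s : ℂ) (hs : 1 < s.re) :
    HasSum (fun n : ℕ => (d3 n : ℂ) * (n : ℂ) ^ (-s)) (riemannZeta s ^ 3) := by
  have h := zetaA_hasSum 3 (1 : ArithmeticFunction ℝ) 1 (by
        intro n hn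
        rw [ArithmeticFunction.one_apply_ne]
        rintro rfl
        simp at hn) s hs
  have h2 : Dp (1 : ArithmeticFunction ℝ) 1 s = 1 := by
    unfold Dp; simp
  rw [h2, mul_one, mul_one, ← dA_nat] at h
  have e : ∀ n : ℕ, (dA ((3 : ℕ) : ℝ)) n = d3 n := by
    intro n
    rw [dA_apply, d3]
    norm_num
  simp only [e] at h
  exact h

theorem d3_zero : d3 0 = 0 := by
  simp [d3, dv]

theorem gamma_line_bound (σ : ℝ) (hσ : 1 ≤ σ) (y : ℝ) :
    ‖Complex.Gamma ((σ : ℂ) + (y : ℂ) * I)‖ ≤ 256 * Real.Gamma (σ + 8) * (1 + y ^ 2)⁻¹ := by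
  have h := gamma_decay ((σ : ℂ) + (y : ℂ) * I) (by simpa using hσ)
  have hre : ((σ : ℂ) + (y : ℂ) * I).re = σ := by simp
  have him : ((σ : ℂ) + (y : ℂ) * I).im = y := by simp
  rw [hre, him] at h
  refine h.trans ?_
  have hG : 0 < Real.Gamma (σ + 8) := Real.Gamma_pos_of_pos (by linarith)
  rw [div_eq_mul_inv]
  apply mul_le_mul_of_nonneg_left _ (by positivity)
  apply inv_anti₀ (by positivity)
  refine (one_add_sq_le (y := y)).trans ?_
  apply pow_le_pow_right₀ (by linarith [abs_nonneg y]) (by norm_num)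

theorem gamma_line_cont (σ : ℝ) (hσ : 1 ≤ σ) :
    Continuous (fun y : ℝ => Complex.Gamma ((σ : ℂ) + (y : ℂ) * I)) := by
  rw [continuous_iff_continuousAt]
  intro y
  have h1 : ContinuousAt Complex.Gamma ((σ : ℂ) + (y : ℂ) * I) := by
    apply DifferentiableAt.continuousAt (𝕜 := ℂ)
    apply Complex.differentiableAt_Gamma
    intro m h
    have := congrArg Complex.re h
    simp at this
    have h4 : (0 : ℝ) ≤ m := Nat.cast_nonneg m
    linarith
  exact ContinuousAt.comp (f := fun y : ℝ => (σ : ℂ) + (y : ℂ) * I) h1 (by fun_prop)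

theorem gamma_line_int (σ : ℝ) (hσ : 1 ≤ σ) :
    Integrable (fun y : ℝ => Complex.Gamma ((σ : ℂ) + (y : ℂ) * I)) := by
  refine Integrable.mono' (integrable_inv_one_add_sq.const_mul (256 * Real.Gamma (σ + 8))) ?_ ?_
  · exact (gamma_line_cont σ hσ).aestronglyMeasurable
  · exact Eventually.of_forall fun y => gamma_line_bound σ hσ y

/-- Mellin inversion for `exp(-x)` -/
theorem mellin_exp (σ : ℝ) (hσ : 1 ≤ σ) {x : ℝ} (hx : 0 < x) :
    (1 / (2 * (Real.pi : ℂ))) * ∫ y : ℝ, (x : ℂ) ^ (-((σ : ℂ) + (y : ℂ) * I)) *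
      Complex.Gamma ((σ : ℂ) + (y : ℂ) * I) = ((Real.exp (-x) : ℝ) : ℂ) := by
  have hm : ∀ y : ℝ, mellin (fun t : ℝ => ((Real.exp (-t) : ℝ) : ℂ)) ((σ : ℂ) + (y : ℂ) * I) =
      Complex.Gamma ((σ : ℂ) + (y : ℂ) * I) := by
    intro y
    rw [← Complex.GammaIntegral_eq_mellin, Complex.Gamma_eq_integral]
    simp
    linarith
  have hint : Integrable (fun y : ℝ =>
      mellin (fun t : ℝ => ((Real.exp (-t) : ℝ) : ℂ)) ((σ : ℂ) + (y : ℂ) * I)) :=
    (gamma_line_int σ hσ).congr (Eventually.of_forall fun y => (hm y).symm)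
  have hconv : MellinConvergent (fun t : ℝ => ((Real.exp (-t) : ℝ) : ℂ)) (σ : ℂ) := by
    have := Complex.GammaIntegral_convergent (s := (σ : ℂ)) (by simp; linarith)
    refine this.congr_fun (fun t _ => ?_) measurableSet_Ioi
    rw [smul_eq_mul, mul_comm]
  have hcont : ContinuousAt (fun t : ℝ => ((Real.exp (-t) : ℝ) : ℂ)) x := by fun_prop
  have h := mellinInv_mellin_eq σ (fun t : ℝ => ((Real.exp (-t) : ℝ) : ℂ)) hx hconv hint hcont
  unfold mellinInv at h
  simp only [hm] at h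
  rw [← h, Complex.real_smul]
  push_cast
  rfl

theorem mellin_term (k : ℕ) {x : ℝ} (hx : 0 < x) :
    (1 / (2 * (Real.pi : ℂ))) * ∫ y : ℝ, Complex.Gamma (((2 : ℝ) : ℂ) + (y : ℂ) * I + k) *
      (x : ℂ) ^ (-(((2 : ℝ) : ℂ) + (y : ℂ) * I)) = ((x ^ k * Real.exp (-x) : ℝ) : ℂ) := by
  have h := mellin_exp (k + 2) (by
    have : (0 : ℝ) ≤ k := Nat.cast_nonneg k
    linarith) hx
  have hx' : (x : ℂ) ≠ 0 := by exact_mod_cast hx.ne'
  rw [Complex.ofReal_mul, ← h, Complex.ofReal_pow, ← mul_assoc, mul_comm ((x : ℂ) ^ k), mul_assoc]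
  congr 1
  rw [← integral_const_mul]
  refine integral_congr_ae (Eventually.of_forall fun y => ?_)
  beta_reduce
  have e1 : ((((k : ℝ) + 2 : ℝ)) : ℂ) + (y : ℂ) * I = ((2 : ℝ) : ℂ) + (y : ℂ) * I + k := by
    push_cast; ring
  rw [e1]
  generalize ((2 : ℝ) : ℂ) + (y : ℂ) * I = z
  rw [neg_add, Complex.cpow_add _ _ hx', Complex.cpow_neg _ (k : ℂ), Complex.cpow_natCast]
  have hk : (x : ℂ) ^ k ≠ 0 := pow_ne_zero _ hx'
  field_simp

theorem Vk_eq (k : ℕ) {u : ℝ} (hu : 0 < u) :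
    ((Vk k u : ℝ) : ℂ) = (1 / (2 * (Real.pi : ℂ))) *
      ∫ y : ℝ, Fk k u (((2 : ℝ) : ℂ) + (y : ℂ) * I) := by
  have hfac : (0 : ℝ) < (k.factorial : ℝ) := by exact_mod_cast Nat.factorial_pos k
  have hfacC : (k.factorial : ℂ) ≠ 0 := by exact_mod_cast hfac.ne'
  have hu' : (u : ℂ) ≠ 0 := by exact_mod_cast hu.ne'
  set S : ℝ → ℂ := fun y => ((2 : ℝ) : ℂ) + (y : ℂ) * I with hS
  have hSre : ∀ y, (S y).re = 2 := by intro y; simp [hS]
  set f : ℕ → ℝ → ℂ := fun m y => ((d3 m : ℝ) : ℂ) * (m : ℂ) ^ (-(S y)) *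
    (Complex.Gamma (S y + k) * (u : ℂ) ^ (S y)) with hf
  -- a single term
  have hterm : ∀ m : ℕ, ((d3 m * ((m : ℝ) / u) ^ k * Real.exp (-((m : ℝ) / u)) : ℝ) : ℂ) =
      (1 / (2 * (Real.pi : ℂ))) * ∫ y : ℝ, f m y := by
    intro m
    rcases Nat.eq_zero_or_pos m with h0 | h0
    · subst h0
      simp [hf, d3_zero]
    · have hm : (0 : ℝ) < m := by exact_mod_cast h0
      have hx : 0 < (m : ℝ) / u := div_pos hm hu
      rw [mul_assoc (d3 m), Complex.ofReal_mul, ← mellin_term k hx, mul_left_comm,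
        ← integral_const_mul]
      congr 1
      refine integral_congr_ae (Eventually.of_forall fun y => ?_)
      beta_reduce
      have e1 : (((m : ℝ) / u : ℝ) : ℂ) ^ (-(S y)) = (m : ℂ) ^ (-(S y)) * (u : ℂ) ^ (S y) := by
        have e2 : (((m : ℝ) / u : ℝ) : ℂ) = ((m : ℝ) : ℂ) * ((u⁻¹ : ℝ) : ℂ) := by
          rw [div_eq_mul_inv, Complex.ofReal_mul]
        rw [e2, Complex.mul_cpow_ofReal_nonneg hm.le (inv_nonneg.2 hu.le)]
        congr 1
        rw [Complex.cpow_def_of_ne_zero (by exact_mod_cast (inv_pos.2 hu).ne'),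
          Complex.cpow_def_of_ne_zero hu', ← Complex.ofReal_log (inv_nonneg.2 hu.le),
          ← Complex.ofReal_log hu.le, Real.log_inv]
        push_cast
        congr 1
        ring
      simp only [hf]
      rw [e1]
      ring
  -- integrability
  have hGi : Integrable (fun y : ℝ => Complex.Gamma (S y + k)) := by
    have h := gamma_line_int (k + 2) (by
      have : (0 : ℝ) ≤ k := Nat.cast_nonneg k
      linarith)
    refine h.congr (Eventually.of_forall fun y => ?_)
    beta_reduce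
    congr 1
    simp only [hS]
    push_cast
    ring
  have hfm : ∀ m : ℕ, ∀ y : ℝ, ‖f m y‖ =
      ‖((d3 m : ℝ) : ℂ) * (m : ℂ) ^ (-(2 : ℂ))‖ * (‖Complex.Gamma (S y + k)‖ * u ^ (2 : ℝ)) := by
    intro m y
    simp only [hf]
    rw [norm_mul, norm_mul, norm_mul, norm_mul, Complex.norm_cpow_eq_rpow_re_of_pos hu, hSre]
    rcases Nat.eq_zero_or_pos m with h0 | h0
    · subst h0
      simp [d3_zero]
    · rw [Complex.norm_natCast_cpow_of_pos h0, Complex.norm_natCast_cpow_of_pos h0,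
        Complex.neg_re, Complex.neg_re, hSre]
      norm_num
  have hfcont : ∀ m : ℕ, Continuous (f m) := by
    intro m
    rcases Nat.eq_zero_or_pos m with h0 | h0
    · subst h0
      have : f 0 = fun _ => 0 := by
        funext y
        simp [hf, d3_zero]
      rw [this]
      exact continuous_const
    · have hm' : (m : ℂ) ≠ 0 := by exact_mod_cast h0.ne'
      have hSc : Continuous S := by
        simp only [hS]
        fun_prop
      have hGc : Continuous (fun y : ℝ => Complex.Gamma (S y + k)) := by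
        have h := gamma_line_cont (k + 2) (by
          have : (0 : ℝ) ≤ k := Nat.cast_nonneg k
          linarith)
        have e : (fun y : ℝ => Complex.Gamma (S y + k)) =
            fun y : ℝ => Complex.Gamma ((((k : ℝ) + 2 : ℝ) : ℂ) + (y : ℂ) * I) := by
          funext y
          congr 1
          simp only [hS]
          push_cast
          ring
        rw [e]
        exact h
      simp only [hf]
      refine (continuous_const.mul ?_).mul (hGc.mul ?_)
      · exact hSc.neg.const_cpow (Or.inl hm')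
      · exact hSc.const_cpow (Or.inl hu')
  have hfint : ∀ m : ℕ, Integrable (f m) := by
    intro m
    refine Integrable.mono' ((hGi.norm.mul_const (u ^ (2 : ℝ))).const_mul
      ‖((d3 m : ℝ) : ℂ) * (m : ℂ) ^ (-(2 : ℂ))‖) (hfcont m).aestronglyMeasurable
      (Eventually.of_forall fun y => (hfm m y).le)
  have hsumm : Summable fun m : ℕ => ∫ y : ℝ, ‖f m y‖ := by
    have e : (fun m : ℕ => ∫ y : ℝ, ‖f m y‖) = fun m : ℕ =>
        ‖((d3 m : ℝ) : ℂ) * (m : ℂ) ^ (-(2 : ℂ))‖ *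
          ∫ y : ℝ, ‖Complex.Gamma (S y + k)‖ * u ^ (2 : ℝ) := by
      funext m
      simp only [hfm]
      rw [integral_const_mul]
    rw [e]
    exact (d3_hasSum 2 (by norm_num)).summable.norm.mul_right _
  have hmain := hasSum_integral_of_summable_integral_norm hfint hsumm
  -- identify the sum
  have hpt : ∀ y : ℝ, ∑' m : ℕ, f m y = (k.factorial : ℂ) * Fk k u (S y) := by
    intro y
    have hs1 : 1 < (S y).re := by rw [hSre]; norm_num
    have h1 := (d3_hasSum (S y) hs1).mul_right (Complex.Gamma (S y + k) * (u : ℂ) ^ (S y))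
    have h2 : ∑' m : ℕ, f m y = riemannZeta (S y) ^ 3 *
        (Complex.Gamma (S y + k) * (u : ℂ) ^ (S y)) := h1.tsum_eq
    rw [h2]
    have hne : S y ≠ 1 := by
      intro h
      have := hSre y
      rw [h] at this
      norm_num at this
    have hne' : S y - 1 ≠ 0 := sub_ne_zero.2 hne
    have hz := zeta_eq_pos (s := S y) (by linarith) hne
    unfold Fk Hk
    rw [← hz]
    field_simp
  simp only [hpt] at hmain
  rw [integral_const_mul] at hmain
  have hm2 := (hmain.mul_left (1 / (2 * (Real.pi : ℂ))))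
  simp only [← hterm] at hm2
  have hm3 := hm2.tsum_eq
  unfold Vk
  rw [Complex.ofReal_div, Complex.ofReal_tsum, Complex.ofReal_natCast, hm3]
  field_simp
  rfl

/-- T9a -/
theorem V_asymp : ∃ C : ℝ, ∃ A : ℕ, ∃ b1 b0 : ℕ → ℝ, 0 < C ∧
    (∀ k : ℕ, 1 ≤ k → |b1 k| ≤ C * (1 + Real.log k) ∧ |b0 k| ≤ C * (1 + Real.log k) ^ 2) ∧
    ∀ k : ℕ, 1 ≤ k → ∀ u : ℝ, 0 < u →
      |Vk k u - u * (Real.log u ^ 2 / 2 + b1 k * Real.log u + b0 k)| ≤
        C * (k : ℝ) ^ A * u ^ (3 / 4 : ℝ) := by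
  refine ⟨10 ^ 18, 9, fun k => (deriv (Hk k) 1).re, fun k => (deriv (dslope (Hk k) 1) 1).re,
    by norm_num, ?_, ?_⟩
  · intro k hk
    have hk0 : (1 : ℝ) ≤ k := by exact_mod_cast hk
    have hl : 0 ≤ Real.log k := Real.log_nonneg hk0
    obtain ⟨h1, h2⟩ := coeff_bounds k hk
    constructor
    · refine (Complex.abs_re_le_norm _).trans (h1.trans ?_)
      have : 0 ≤ 1 + Real.log k := by linarith
      nlinarith
    · refine (Complex.abs_re_le_norm _).trans (h2.trans ?_)
      have : 0 ≤ (1 + Real.log k) ^ 2 := by positivity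
      nlinarith
  · intro k hk u hu
    have hV := Vk_eq k hu
    have hsh := shiftF k hk hu
    have hb := Fk_line_integral k hk hu
    set A := ∫ y : ℝ, Fk k u (((2 : ℝ) : ℂ) + (y : ℂ) * I) with hA
    set B := ∫ y : ℝ, Fk k u (((3 / 4 : ℝ) : ℂ) + (y : ℂ) * I) with hB
    have hpi : (Real.pi : ℂ) ≠ 0 := by exact_mod_cast Real.pi_ne_zero
    have hA2 : A = B + 2 * (Real.pi : ℂ) * ((u : ℂ) * (deriv (dslope (Hk k) 1) 1 +
        deriv (Hk k) 1 * (Real.log u : ℂ) + (Real.log u : ℂ) ^ 2 / 2)) := by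
      rw [← hsh]; ring
    have hdiff : ((Vk k u : ℝ) : ℂ) - (u : ℂ) * ((Real.log u : ℂ) ^ 2 / 2 +
        deriv (Hk k) 1 * (Real.log u : ℂ) + deriv (dslope (Hk k) 1) 1) =
        1 / (2 * (Real.pi : ℂ)) * B := by
      rw [hV, hA2]
      field_simp
      ring
    have hre := congrArg Complex.re hdiff
    have hlhs : (((Vk k u : ℝ) : ℂ) - (u : ℂ) * ((Real.log u : ℂ) ^ 2 / 2 +
        deriv (Hk k) 1 * (Real.log u : ℂ) + deriv (dslope (Hk k) 1) 1)).re =
        Vk k u - u * (Real.log u ^ 2 / 2 + (deriv (Hk k) 1).re * Real.log u +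
          (deriv (dslope (Hk k) 1) 1).re) := by
      have e : (Real.log u : ℂ) ^ 2 / 2 = ((Real.log u ^ 2 / 2 : ℝ) : ℂ) := by
        push_cast; ring
      rw [e, Complex.sub_re, Complex.ofReal_re, Complex.re_ofReal_mul, Complex.add_re,
        Complex.add_re, Complex.ofReal_re, Complex.re_mul_ofReal]
    rw [hlhs] at hre
    rw [hre]
    refine (Complex.abs_re_le_norm _).trans ?_
    have hn : ‖1 / (2 * (Real.pi : ℂ))‖ = 1 / (2 * Real.pi) := by
      rw [norm_div, norm_mul, norm_one, Complex.norm_real, Real.norm_of_nonneg Real.pi_pos.le]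
      norm_num
    rw [norm_mul, hn]
    have hpi2 := Real.pi_pos
    calc 1 / (2 * Real.pi) * ‖B‖ ≤ 1 / (2 * Real.pi) *
          (5038848 * (10 * (k : ℝ)) ^ 9 * u ^ (3 / 4 : ℝ) * 64 * Real.pi) := by
          gcongr
      _ = (5038848 * 32 * 10 ^ 9) * ((k : ℝ) ^ 9 * u ^ (3 / 4 : ℝ)) := by
          field_simp
          ring
      _ ≤ 10 ^ 18 * ((k : ℝ) ^ 9 * u ^ (3 / 4 : ℝ)) := by
          have : 0 ≤ (k : ℝ) ^ 9 * u ^ (3 / 4 : ℝ) := by positivity
          apply mul_le_mul_of_nonneg_right (by norm_num) this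
      _ = _ := by ring

end

end Pool.Agent.H950R2
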